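import Pool.Agent.L0h44.LT2.Cor
import Pool.Agent.L0h58.HN.Stm

/-! HN: thick rectangles. -/

set_option autoImplicit false

namespace Pool.Agent.L0h76.HN

open Finset Pool.Agent.L0h32.LT2 Pool.Agent.L0h58.HN Pool.Agent.L0h44.LT2

open Classical in
/-- extraction of a dense part -/
theorem extract2 {N K ρ s Δ : ℕ} {F X : Type} [Fintype F] [Fintype X]
    (a : X → Fin N → (Fin 6 → F)) (hN : 4 ≤ N) (hF : N ^ 2 ≤ Fintype.card F)
    (hρ : Fintype.card F = 2 ^ ρ) (hs : s + Δ + 2 * ρ ≤ ρ * K) (ha : SpreadK K s a) (S : Finset X)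
    (hS : S.Nonempty) (hX : Fintype.card X ≤ 2 ^ Δ * S.card) :
    ∃ (S' : Finset X) (I : Finset (Fin N)), S' ⊆ S ∧ S'.Nonempty ∧ I.card ≤ (s + Δ) / ρ ∧
      Dense2 S' a I := by
  obtain ⟨q, hq⟩ : ∃ q, q = Fintype.card F := ⟨_, rfl⟩
  rw [← hq] at hF hρ
  have hq16 : 16 ≤ q := le_trans (by nlinarith) hF
  have hq0 : 0 < q := by omega
  have hρ0 : 0 < ρ := by
    rcases Nat.eq_zero_or_pos ρ with h0 | h0
    · rw [h0, pow_zero] at hρ; omega
    · exact h0
  obtain ⟨P, hP⟩ : ∃ P : Finset (Finset (Fin N)), P = univ.filter (fun I => I.card ≤ K ∧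
    ∃ z : Fin N → (Fin 6 → F), S.card ≤ q ^ (5 * I.card) *
      (S.filter fun x => ∀ j ∈ I, a x j = z j).card) := ⟨_, rfl⟩
  have hne : P.Nonempty := by
    obtain ⟨x0, hx0⟩ := hS
    refine ⟨∅, ?_⟩
    rw [hP, mem_filter]
    refine ⟨mem_univ _, by simp, a x0, ?_⟩
    simp
  obtain ⟨I, hI, hmax⟩ := exists_max_image P (fun I => I.card) hne
  rw [hP, mem_filter] at hI
  obtain ⟨-, hIK, z, hz⟩ := hI
  obtain ⟨S', hS'⟩ : ∃ S' : Finset X, S' = S.filter (fun x => ∀ j ∈ I, a x j = z j) := ⟨_, rfl⟩
  rw [← hS'] at hz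
  have hSpos : 0 < S.card := hS.card_pos
  have hS'pos : 0 < S'.card := by
    rcases Nat.eq_zero_or_pos S'.card with h0 | h0
    · rw [h0, mul_zero] at hz
      omega
    · exact h0
  have hsize : ρ * I.card ≤ s + Δ := by
    have h1 := ha I z hIK
    rw [← hq] at h1
    have h2 : S'.card ≤ (univ.filter fun x => ∀ j ∈ I, a x j = z j).card := by
      apply card_le_card
      intro x hx
      rw [hS', mem_filter] at hx
      exact mem_filter.2 ⟨mem_univ _, hx.2⟩
    have h3 : S'.card * q ^ (6 * I.card) ≤ 2 ^ (s + Δ) * (q ^ (5 * I.card) * S'.card) := by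
      calc S'.card * q ^ (6 * I.card) ≤
          (univ.filter fun x => ∀ j ∈ I, a x j = z j).card * q ^ (6 * I.card) :=
            Nat.mul_le_mul_right _ h2
        _ ≤ 2 ^ s * Fintype.card X := h1
        _ ≤ 2 ^ s * (2 ^ Δ * S.card) := Nat.mul_le_mul_left _ hX
        _ ≤ 2 ^ s * (2 ^ Δ * (q ^ (5 * I.card) * S'.card)) :=
            Nat.mul_le_mul_left _ (Nat.mul_le_mul_left _ hz)
        _ = 2 ^ (s + Δ) * (q ^ (5 * I.card) * S'.card) := by rw [pow_add]; ring
    have h4 : q ^ I.card ≤ 2 ^ (s + Δ) := by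
      have h5 : 0 < q ^ (5 * I.card) * S'.card := Nat.mul_pos (Nat.pow_pos hq0) hS'pos
      refine Nat.le_of_mul_le_mul_right ?_ h5
      calc q ^ I.card * (q ^ (5 * I.card) * S'.card) = S'.card * q ^ (6 * I.card) := by
            rw [show 6 * I.card = I.card + 5 * I.card by ring, pow_add]; ring
        _ ≤ _ := h3
    rw [hρ, ← pow_mul] at h4
    exact (Nat.pow_le_pow_iff_right (by norm_num)).1 h4
  refine ⟨S', I, by rw [hS']; exact filter_subset _ _, card_pos.1 hS'pos, ?_, ?_⟩
  · rw [Nat.le_div_iff_mul_le hρ0]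
    linarith [mul_comm ρ I.card]
  · intro J w hJ2 hJI
    rw [← hq]
    by_contra hcon
    rw [not_le] at hcon
    have hJ : J ≠ ∅ := by
      rintro rfl
      simp at hcon
    have hJ0 : 0 < J.card := card_pos.2 (nonempty_iff_ne_empty.2 hJ)
    have hunion : (I ∪ J).card = I.card + J.card := card_union_of_disjoint hJI.symm
    have hmem : I ∪ J ∈ P := by
      rw [hP, mem_filter]
      refine ⟨mem_univ _, ?_, fun j => if j ∈ J then w j else z j, ?_⟩
      · rw [hunion]
        have h1 : ρ * (I.card + 2) ≤ ρ * K := by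
          calc ρ * (I.card + 2) = ρ * I.card + 2 * ρ := by ring
            _ ≤ s + Δ + 2 * ρ := by omega
            _ ≤ _ := hs
        have h2 : I.card + 2 ≤ K := Nat.le_of_mul_le_mul_left h1 hρ0
        omega
      have hset : S'.filter (fun x => ∀ j ∈ J, a x j = w j) ⊆
          S.filter (fun x => ∀ j ∈ I ∪ J, a x j = (fun j => if j ∈ J then w j else z j) j) := by
        intro x hx
        rw [mem_filter, hS', mem_filter] at hx
        rw [mem_filter]
        refine ⟨hx.1.1, fun j hj => ?_⟩
        by_cases hjJ : j ∈ J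
        · simp only [hjJ, if_true]
          exact hx.2 j hjJ
        · simp only [hjJ, if_false]
          exact hx.1.2 j ((mem_union.1 hj).resolve_right hjJ)
      calc S.card ≤ q ^ (5 * I.card) * S'.card := hz
        _ ≤ q ^ (5 * I.card) * ((S'.filter (fun x => ∀ j ∈ J, a x j = w j)).card *
            q ^ (5 * J.card)) := Nat.mul_le_mul_left _ hcon.le
        _ = q ^ (5 * (I ∪ J).card) * (S'.filter (fun x => ∀ j ∈ J, a x j = w j)).card := by
            rw [hunion, show 5 * (I.card + J.card) = 5 * I.card + 5 * J.card by ring, pow_add]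
            ring
        _ ≤ _ := Nat.mul_le_mul_left _ (card_le_card hset)
    have := hmax _ hmem
    rw [hunion] at this
    omega

theorem t_COR2 (hD : S_DEN2) : S_COR2 := by
  classical
  intro N K ρ s Δ F X Y _ _ _ _ _ a b hN hF hρ hs ha hb
  obtain ⟨D, hDd⟩ : ∃ D, D = (s + Δ) / ρ := ⟨_, rfl⟩
  rw [← hDd]
  have core : ∀ (S' : Finset X) (T' : Finset Y) (I I' : Finset (Fin N)), I.card ≤ D → I'.card ≤ D →
      Dense2 S' a I → Dense2 T' b I' → N * (S'.card * T'.card) ≤
        Fintype.card F * (hits S' T' a b).card + (2 * D + 1) * (S'.card * T'.card) := by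
    intro S' T' I I' hI hI' h1 h2
    refine (hD N F X Y S' T' a b I I' hN hF h1 h2).trans ?_
    refine Nat.add_le_add_left (Nat.mul_le_mul_right _ ?_) _
    omega
  -- the first induction
  have ind1 : ∀ (T' : Finset Y) (I' : Finset (Fin N)), I'.card ≤ D → Dense2 T' b I' →
      ∀ (n : ℕ) (S : Finset X), S.card = n → 2 ^ Δ * (N * (S.card * T'.card)) ≤
        2 ^ Δ * (Fintype.card F * (hits S T' a b).card + (2 * D + 1) * (S.card * T'.card)) +
          N * (Fintype.card X * T'.card) := by
    intro T' I' hI' hT' n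
    induction n using Nat.strong_induction_on with
    | _ n ih =>
      intro S hn
      rcases S.eq_empty_or_nonempty with h0 | hne
      · rw [h0, card_empty, zero_mul, mul_zero, mul_zero]
        exact Nat.zero_le _
      rcases lt_or_ge (2 ^ Δ * S.card) (Fintype.card X) with h1 | h1
      · have h2 : 2 ^ Δ * (N * (S.card * T'.card)) = N * (2 ^ Δ * S.card * T'.card) := by ring
        rw [h2]
        exact (Nat.mul_le_mul_left _ (Nat.mul_le_mul_right _ h1.le)).trans (Nat.le_add_left _ _)
      obtain ⟨S', I, hS'S, hS'ne, hI, hdense⟩ := extract2 a hN hF hρ hs ha S hne h1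
      rw [← hDd] at hI
      have h2 := core S' T' I I' hI hI' hdense hT'
      have h3 : (S \ S').card + S'.card = S.card := card_sdiff_add_card_eq_card hS'S
      have h4 : 0 < S'.card := hS'ne.card_pos
      have h5 := ih (S \ S').card (by omega) (S \ S') rfl
      rw [hits_split_left hS'S T' a b]
      have h6 := Nat.mul_le_mul_left (2 ^ Δ) h2
      have e1 : 2 ^ Δ * (N * (S.card * T'.card)) = 2 ^ Δ * (N * (S'.card * T'.card)) +
          2 ^ Δ * (N * ((S \ S').card * T'.card)) := by rw [← h3]; ring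
      have e2 : 2 ^ Δ * (Fintype.card F * ((hits S' T' a b).card + (hits (S \ S') T' a b).card) +
          (2 * D + 1) * (S.card * T'.card)) =
          2 ^ Δ * (Fintype.card F * (hits S' T' a b).card + (2 * D + 1) * (S'.card * T'.card)) +
          2 ^ Δ * (Fintype.card F * (hits (S \ S') T' a b).card +
            (2 * D + 1) * ((S \ S').card * T'.card)) := by
        rw [← h3]; ring
      rw [e1, e2]
      omega
  intro S T
  obtain ⟨n, hn⟩ : ∃ n, n = T.card := ⟨_, rfl⟩
  induction n using Nat.strong_induction_on generalizing T with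
  | _ n ih =>
    rcases T.eq_empty_or_nonempty with h0 | hne
    · rw [h0, card_empty, mul_zero, mul_zero, mul_zero]
      exact Nat.zero_le _
    rcases lt_or_ge (2 ^ Δ * T.card) (Fintype.card Y) with h1 | h1
    · have h2 : 2 ^ Δ * (N * (S.card * T.card)) = N * (S.card * (2 ^ Δ * T.card)) := by ring
      rw [h2]
      have h3 := Nat.mul_le_mul_left N (Nat.mul_le_mul_left S.card h1.le)
      have h4 : N * (Fintype.card X * T.card + S.card * Fintype.card Y) =
        N * (Fintype.card X * T.card) + N * (S.card * Fintype.card Y) := by ring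
      omega
    obtain ⟨T', I', hT'T, hT'ne, hI', hdense⟩ := extract2 b hN hF hρ hs hb T hne h1
    rw [← hDd] at hI'
    have h2 := ind1 T' I' hI' hdense S.card S rfl
    have h3 : (T \ T').card + T'.card = T.card := card_sdiff_add_card_eq_card hT'T
    have h4 : 0 < T'.card := hT'ne.card_pos
    have h5 := ih (T \ T').card (by omega) (T \ T') rfl
    rw [hits_split_right S hT'T a b]
    have e1 : 2 ^ Δ * (N * (S.card * T.card)) = 2 ^ Δ * (N * (S.card * T'.card)) +
        2 ^ Δ * (N * (S.card * (T \ T').card)) := by rw [← h3]; ring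
    have e2 : 2 ^ Δ * (Fintype.card F * ((hits S T' a b).card + (hits S (T \ T') a b).card) +
        (2 * D + 1) * (S.card * T.card)) =
        2 ^ Δ * (Fintype.card F * (hits S T' a b).card + (2 * D + 1) * (S.card * T'.card)) +
        2 ^ Δ * (Fintype.card F * (hits S (T \ T') a b).card +
          (2 * D + 1) * (S.card * (T \ T').card)) := by
      rw [← h3]; ring
    have e3 : N * (Fintype.card X * T.card + S.card * Fintype.card Y) =
        N * (Fintype.card X * T'.card) +
          N * (Fintype.card X * (T \ T').card + S.card * Fintype.card Y) := by rw [← h3]; ring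
    rw [e1, e2, e3]
    omega

end Pool.Agent.L0h76.HN
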