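import Pool.Agent.L0h55.LT2.Fin
import Pool.Agent.L0h58.HN.Stm

/-! HN: uniform inputs. -/

set_option autoImplicit false
set_option linter.unusedSectionVars false

namespace Pool.Agent.L0h76.HN

open Finset Pool.Agent.L0h32.LT2 Pool.Agent.L0h58.HN Pool.Agent.L0h55.LT2

theorem t_ZER2 : S_ZER2 := by
  intro N k0 s F X Y _ _ _ _ _ a b hk0 hSa hSb
  classical
  obtain ⟨χ, hχ⟩ := exists_chr F
  set q : ℝ := (Fintype.card F : ℝ) with hqd
  have hqp : 0 < q := by rw [hqd]; exact_mod_cast Fintype.card_pos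
  have hq1 : 1 ≤ q := by
    rw [hqd]; exact_mod_cast Fintype.card_pos
  set S : Finset X := univ with hS
  set T : Finset Y := univ with hT
  set R := S ×ˢ T with hR
  set K : ℝ := (R.card : ℝ) with hK
  have hKc : K = (Fintype.card X : ℝ) * Fintype.card Y := by
    rw [hK, hR, card_product, hS, hT, card_univ, card_univ]; push_cast; ring
  have hK0 : 0 ≤ K := Nat.cast_nonneg _
  set t : Fin N → X × Y → F := fun j p => qf (a p.1 j + b p.2 j) with ht
  have gen : ∀ {Z : Type} [Fintype Z] (c : Z → Fin N → (Fin 6 → F)), SpreadK k0 s c → ∀ j z,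
      (((univ : Finset Z).filter fun x => c x j = z).card : ℝ) ≤
        2 ^ s * (univ : Finset Z).card / q ^ 6 := by
    intro Z _ c hc j z
    have h1 := hc {j} (fun _ => z) (by simpa using hk0)
    have e : ((univ : Finset Z).filter fun x => ∀ i ∈ ({j} : Finset (Fin N)), c x i = z) =
        univ.filter fun x => c x j = z := by
      ext x
      simp
    rw [e, card_singleton, mul_one] at h1
    rw [le_div_iff₀ (by positivity), card_univ, hqd]
    exact_mod_cast h1
  have hE : ∀ j, ∀ l : F, l ≠ 0 → |∑ p ∈ R, χ (l * t j p)| ≤ 2 ^ s / q ^ 3 * R.card := by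
    intro j l hl
    refine one_block hχ S T (fun x => a x j) (fun y => b y j) (2 ^ s * S.card / q ^ 6)
      (2 ^ s * T.card / q ^ 6) (2 ^ s / q ^ 3) (by positivity) (fun z => gen a hSa j z)
      (fun z => gen b hSb j z) ?_ l hl
    rw [← hqd]
    refine le_of_eq ?_
    field_simp
  have hc1 := fun j => (cnt1 hχ R (t j) (2 ^ s / q ^ 3) (hE j)).1
  rw [← hqd] at hc1
  have b1 : ∀ j, q ^ 3 * ∑ p ∈ R, ind (t j p) ≤ (q ^ 2 + 2 ^ s) * K := by
    intro j
    have h0 := hc1 j
    have h1 : q ^ 3 * ∑ p ∈ R, ind (t j p) ≤ q ^ 2 * ((1 + (q - 1) * (2 ^ s / q ^ 3)) * K) := by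
      calc q ^ 3 * ∑ p ∈ R, ind (t j p) = q ^ 2 * (q * ∑ p ∈ R, ind (t j p)) := by ring
        _ ≤ _ := mul_le_mul_of_nonneg_left h0 (by positivity)
    refine h1.trans ?_
    have h2 : q ^ 2 * ((1 + (q - 1) * (2 ^ s / q ^ 3)) * K) =
        (q ^ 2 + (q - 1) / q * 2 ^ s) * K := by
      field_simp
    rw [h2]
    apply mul_le_mul_of_nonneg_right _ hK0
    have h3 : (q - 1) / q ≤ 1 := by
      rw [div_le_one hqp]
      linarith
    have h4 : (q - 1) / q * 2 ^ s ≤ 1 * 2 ^ s := mul_le_mul_of_nonneg_right h3 (by positivity)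
    linarith
  have hH : ((hits S T a b).card : ℝ) ≤ ∑ j : Fin N, ∑ p ∈ R, ind (t j p) := by
    rw [Finset.sum_comm]
    have h1 : ((hits S T a b).card : ℝ) = ∑ p ∈ hits S T a b, (1 : ℝ) := by simp
    rw [h1]
    have hsub : hits S T a b ⊆ R := by
      unfold hits
      exact filter_subset _ _
    refine (Finset.sum_le_sum fun p hp => ?_).trans
      (Finset.sum_le_sum_of_subset_of_nonneg hsub fun p _ _ =>
        Finset.sum_nonneg fun j _ => ind_nonneg _)
    unfold hits at hp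
    obtain ⟨_, j, hj⟩ := mem_filter.1 hp
    have h2 : ind (t j p) = 1 := by
      unfold ind
      rw [if_pos]
      exact hj
    rw [← h2]
    exact Finset.single_le_sum (f := fun j => ind (t j p)) (fun j _ => ind_nonneg _) (mem_univ j)
  have h3 : q ^ 3 * ∑ j : Fin N, ∑ p ∈ R, ind (t j p) ≤ N * ((q ^ 2 + 2 ^ s) * K) := by
    rw [Finset.mul_sum]
    refine (Finset.sum_le_sum fun j _ => b1 j).trans (le_of_eq ?_)
    rw [Finset.sum_const, nsmul_eq_mul, card_univ, Fintype.card_fin]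
  have h5 : q ^ 3 * ((hits S T a b).card : ℝ) ≤ N * ((q ^ 2 + 2 ^ s) * K) :=
    (mul_le_mul_of_nonneg_left hH (by positivity)).trans h3
  rw [hKc] at h5
  have h6 : q ^ 3 * ((hits S T a b).card : ℝ) ≤
      N * ((Fintype.card X : ℝ) * Fintype.card Y) * (q ^ 2 + 2 ^ s) := by
    refine h5.trans (le_of_eq ?_)
    ring
  rw [hqd] at h6
  exact_mod_cast h6

end Pool.Agent.L0h76.HN
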